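import Mathlib
import Pool.Agent.Helper844.RF.Lie
import Pool.Agent.Helper844.RF.LieEx

/-!
# Locally residually finite varieties of Lie algebras over a finite field: necessary conditions

Let `F` be a finite field and let a variety `V` of Lie algebras be locally residually finite. Then
finitely generated algebras of `V` have finite centres. For identities this means: if
`t 0, t 1, ...` are Lie polynomials in `n` variables, then for some `k < l` the difference
`t k - t l` lies in the ideal generated by the identities of `V` and all commutators
`[x_i, t j]`. In particular, for some `k < l`,

  `[a, y, ..., y, b] - [a, y, ..., y, b] = ` (an element of the ideal generated by all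
  `[x, [a, y, ..., y, b]]`, `x = a, y, b`)

with `k` and `l` letters `y` on the left is an identity of `V`, and `V` does not contain the
variety of centre-by-metabelian Lie algebras.

Proof: a finitely generated algebra `L` has countably many ideals of finite index, while an
infinite centre has uncountably many hyperplanes `K`; all of them are ideals, and in the
residually finite algebra `L / K` some ideal of finite index meets the centre of `L` exactly
in `K`.
-/

set_option autoImplicit false

namespace Pool.Agent.Results.MP_8f946f_al.FiniteCentres

open Pool.Agent.Helper844.RFLie

universe u

/-- Necessary conditions for local residual finiteness of a variety of Lie algebras over a finite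
field. -/
theorem result (F : Type u) [Field F] [Finite F] (I : Set (FreeLieAlgebra F ℕ))
    (hI : LocallyResiduallyFinite I) :
    -- finitely generated algebras in the variety have finite centres
    (∀ (L : Type u) [LieRing L] [LieAlgebra F L],
      InVariety I L → FinGen F L → Finite (LieAlgebra.center F L)) ∧
    -- the same in the form of a condition on the identities
    (∀ (n : ℕ) (t : ℕ → FreeLieAlgebra F (Fin n)), ∃ k l, k < l ∧ t k - t l ∈
      LieSubmodule.lieSpan F (FreeLieAlgebra F (Fin n)) (values I n ∪ products t)) ∧
    -- identities of Engel type
    (∃ k l, k < l ∧ engel F k - engel F l ∈
      LieSubmodule.lieSpan F (FreeLieAlgebra F (Fin 3)) (values I 3 ∪ products (engel F))) ∧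
    -- the variety does not contain all centre-by-metabelian algebras
    (∃ (L : Type u) (_ : LieRing L) (_ : LieAlgebra F L),
      (∀ x y z t w : L, ⁅⁅⁅x, y⁆, ⁅z, t⁆⁆, w⁆ = 0) ∧ ¬ InVariety I L) := by
  refine ⟨?_, ?_, ?_, ?_⟩
  · intro L _ _ hL hfg
    exact center_finite I hI L hL hfg
  · intro n t
    exact sequence_form I hI n t
  · exact sequence_form I hI 3 (engel F)
  · exact not_contains F I hI

end Pool.Agent.Results.MP_8f946f_al.FiniteCentres
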